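import Pool.Agent.helper84.VQ.Spec4b

/-! Row DA4 of project VQ (MP_07c750_an): Lipschitz images and the Haar measure. -/

set_option autoImplicit false

open scoped MatrixGroups ContDiff Topology UpperHalfPlane ComplexConjugate ENNReal
open UpperHalfPlane MeasureTheory Filter Set

namespace Pool.Agent.VQ

open Pool.Agent.RS
open Pool.Agent.VQE (nm mt)

theorem DA4_mul (D E : SL(2, ℝ)) (i j : Fin 2) : (D * E).1 i j = D.1 i 0 * E.1 0 j + D.1 i 1 * E.1 1 j := by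
  have h : (D * E).1 = D.1 * E.1 := rfl
  rw [h, Matrix.mul_apply, Fin.sum_univ_two]

theorem DA4_ent (g : SL(2, ℝ)) (x s : ℝ) (i : Fin 2) : (g * nM x * aM s).1 i 0 = g.1 i 0 * Real.exp (s / 2) ∧
    (g * nM x * aM s).1 i 1 = (g.1 i 0 * x + g.1 i 1) * Real.exp (-(s / 2)) := by
  have a00 : (aM s).1 0 0 = Real.exp (s / 2) := rfl
  have a01 : (aM s).1 0 1 = 0 := rfl
  have a10 : (aM s).1 1 0 = 0 := rfl
  have a11 : (aM s).1 1 1 = Real.exp (-(s / 2)) := rfl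
  have n00 : (nM x).1 0 0 = 1 := rfl
  have n01 : (nM x).1 0 1 = x := rfl
  have n10 : (nM x).1 1 0 = 0 := rfl
  have n11 : (nM x).1 1 1 = 1 := rfl
  constructor
  · rw [DA4_mul, DA4_mul g (nM x) i 0, DA4_mul g (nM x) i 1, a00, a10, n00, n10]
    ring
  · rw [DA4_mul, DA4_mul g (nM x) i 0, DA4_mul g (nM x) i 1, a01, a11, n00, n10, n01, n11]
    ring

theorem DA4_exp2 (a : ℝ) (ha : |a| ≤ 1 / 10) : Real.exp a ≤ 2 := by
  have h1 : Real.exp a * Real.exp (-a) = 1 := by rw [← Real.exp_add, add_neg_cancel, Real.exp_zero]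
  have h2 := Real.add_one_le_exp (-a)
  have h3 := (abs_le.1 ha).2
  have h4 := Real.exp_pos a
  nlinarith

theorem DA4_exp (a b : ℝ) (ha : |a| ≤ 1 / 10) (hb : |b| ≤ 1 / 10) : |Real.exp a - Real.exp b| ≤ 2 * |a - b| := by
  have key : ∀ a b : ℝ, |a| ≤ 1 / 10 → b ≤ a → |Real.exp a - Real.exp b| ≤ 2 * |a - b| := by
    intro a b ha hab
    have h1 : Real.exp b ≤ Real.exp a := Real.exp_le_exp.2 hab
    rw [abs_of_nonneg (sub_nonneg.2 h1), abs_of_nonneg (sub_nonneg.2 hab)]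
    have h2 : Real.exp b = Real.exp a * Real.exp (b - a) := by rw [← Real.exp_add, add_sub_cancel]
    have h3 := Real.add_one_le_exp (b - a)
    have h4 := DA4_exp2 a ha
    have h5 := Real.exp_pos a
    have h6 : Real.exp a * (b - a + 1) ≤ Real.exp a * Real.exp (b - a) := mul_le_mul_of_nonneg_left h3 h5.le
    have h7 : Real.exp a * (a - b) ≤ 2 * (a - b) := mul_le_mul_of_nonneg_right h4 (sub_nonneg.2 hab)
    rw [h2]
    linarith
  rcases le_total b a with h | h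
  · exact key a b ha h
  · rw [abs_sub_comm, abs_sub_comm a b]
    exact key b a hb h

theorem DA4_pe (P P' E E' α β : ℝ) (h1 : |P - P'| ≤ α) (h2 : |E - E'| ≤ β) (h3 : |E| ≤ 2) (h4 : |P'| ≤ 2) :
    |P * E - P' * E'| ≤ 2 * α + 2 * β := by
  have e : P * E - P' * E' = (P - P') * E + P' * (E - E') := by ring
  have h5 : |(P - P') * E| ≤ α * 2 := by
    rw [abs_mul]
    exact mul_le_mul h1 h3 (abs_nonneg _) ((abs_nonneg _).trans h1)
  have h6 : |P' * (E - E')| ≤ 2 * β := by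
    rw [abs_mul]
    exact mul_le_mul h4 h2 (abs_nonneg _) (by norm_num)
  rw [e]
  refine (abs_add_le _ _).trans ?_
  linarith

theorem DA4_nm (D : SL(2, ℝ)) : |D.1 0 0 - 1| ≤ nm D ∧ |D.1 0 1| ≤ nm D ∧ |D.1 1 0| ≤ nm D ∧ |D.1 1 1 - 1| ≤ nm D :=
  ⟨(le_max_left _ _).trans (le_max_left _ _), (le_max_right _ _).trans (le_max_left _ _),
    (le_max_left _ _).trans (le_max_right _ _), (le_max_right _ _).trans (le_max_right _ _)⟩

theorem DA4_big (Y : SL(2, ℝ)) (h : nm Y ≤ 1 / 10) (i : Fin 2) : |Y.1 i 0| ≤ 11 / 10 ∧ |Y.1 i 1| ≤ 11 / 10 := by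
  obtain ⟨h1, h2, h3, h4⟩ := DA4_nm Y
  revert i
  rw [Fin.forall_fin_two]
  rw [abs_le] at h1 h2 h3 h4
  refine ⟨⟨?_, ?_⟩, ?_, ?_⟩ <;> rw [abs_le] <;> constructor <;> linarith [h1.1, h1.2, h2.1, h2.2, h3.1, h3.2, h4.1, h4.2]

theorem DA4_two (a b p q δ : ℝ) (ha : |a| ≤ 11 / 10) (hb : |b| ≤ 11 / 10) (hp : |p| ≤ δ) (hq : |q| ≤ δ) :
    |a * p + b * q| ≤ 3 * δ := by
  have hδ : 0 ≤ δ := (abs_nonneg _).trans hp
  have h1 : |a * p| ≤ 11 / 10 * δ := by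
    rw [abs_mul]
    exact mul_le_mul ha hp (abs_nonneg _) (by norm_num)
  have h2 : |b * q| ≤ 11 / 10 * δ := by
    rw [abs_mul]
    exact mul_le_mul hb hq (abs_nonneg _) (by norm_num)
  refine (abs_add_le _ _).trans ?_
  linarith

theorem DA4_dif (Y Y' : SL(2, ℝ)) (δ : ℝ) (h : nm Y ≤ 1 / 10) (hD : nm (Y⁻¹ * Y') ≤ δ) (i : Fin 2) :
    |Y.1 i 0 - Y'.1 i 0| ≤ 3 * δ ∧ |Y.1 i 1 - Y'.1 i 1| ≤ 3 * δ := by
  obtain ⟨h1, h2, h3, h4⟩ := DA4_nm (Y⁻¹ * Y')
  obtain ⟨b1, b2⟩ := DA4_big Y h i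
  have e : Y' = Y * (Y⁻¹ * Y') := by rw [mul_inv_cancel_left]
  have e0 : Y.1 i 0 - Y'.1 i 0 = -(Y.1 i 0 * ((Y⁻¹ * Y').1 0 0 - 1) + Y.1 i 1 * (Y⁻¹ * Y').1 1 0) := by
    have e1 : Y'.1 i 0 = Y.1 i 0 * (Y⁻¹ * Y').1 0 0 + Y.1 i 1 * (Y⁻¹ * Y').1 1 0 := by
      rw [← DA4_mul, ← e]
    rw [e1]
    ring
  have e0' : Y.1 i 1 - Y'.1 i 1 = -(Y.1 i 0 * (Y⁻¹ * Y').1 0 1 + Y.1 i 1 * ((Y⁻¹ * Y').1 1 1 - 1)) := by
    have e1 : Y'.1 i 1 = Y.1 i 0 * (Y⁻¹ * Y').1 0 1 + Y.1 i 1 * (Y⁻¹ * Y').1 1 1 := by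
      rw [← DA4_mul, ← e]
    rw [e1]
    ring
  constructor
  · rw [e0, abs_neg]
    exact DA4_two _ _ _ _ δ b1 b2 (h1.trans hD) (h3.trans hD)
  · rw [e0', abs_neg]
    exact DA4_two _ _ _ _ δ b1 b2 (h2.trans hD) (h4.trans hD)

theorem DA4_lip (c r : ℝ) (y : ℝ → SL(2, ℝ)) (hL : LC c r y) (z z' : Fin 3 → ℝ) (hz : z ∈ Icc (fun _ => -r) (fun _ => r))
    (hz' : z' ∈ Icc (fun _ => -r) (fun _ => r)) (i j : Fin 2) :
    |(Th3 y z).1 i j - (Th3 y z').1 i j| ≤ 12 * (c * |z 0 - z' 0| + |z 1 - z' 1| + |z 2 - z' 2|) := by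
  have hr := hL.r0
  have hm : ∀ z : Fin 3 → ℝ, z ∈ Icc (fun _ => -r) (fun _ => r) → ∀ k, |z k| ≤ r := fun z hz k =>
    abs_le.2 ⟨hz.1 k, hz.2 k⟩
  have hn : ∀ u : ℝ, |u| ≤ r → nm (y u) ≤ 1 / 10 := by
    intro u hu
    have h1 := hL.lip 0 ⟨by linarith, hr.le⟩ u (abs_le.1 hu)
    rw [hL.zero, inv_one, one_mul, zero_sub, abs_neg] at h1
    have h2 : c * |u| ≤ c * r := mul_le_mul_of_nonneg_left hu hL.c0.le
    linarith [hL.cr]
  have hr1 := hL.r1
  have hY := hn _ (hm z hz 0)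
  have hY' := hn _ (hm z' hz' 0)
  have hD := hL.lip (z 0) (abs_le.1 (hm z hz 0)) (z' 0) (abs_le.1 (hm z' hz' 0))
  obtain ⟨d0, d1⟩ := DA4_dif (y (z 0)) (y (z' 0)) _ hY hD i
  obtain ⟨b0, b1⟩ := DA4_big (y (z 0)) hY i
  obtain ⟨b0', b1'⟩ := DA4_big (y (z' 0)) hY' i
  obtain ⟨e0, e1⟩ := DA4_ent (y (z 0)) (z 1) (z 2) i
  obtain ⟨e0', e1'⟩ := DA4_ent (y (z' 0)) (z' 1) (z' 2) i
  have hx := hm z hz 1
  have hx' := hm z' hz' 1
  have hs := hm z hz 2
  have hs' := hm z' hz' 2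
  have hs1 : |z 2 / 2| ≤ 1 / 10 := by
    rw [abs_div, abs_two]
    linarith [abs_nonneg (z 2)]
  have hs1' : |z' 2 / 2| ≤ 1 / 10 := by
    rw [abs_div, abs_two]
    linarith [abs_nonneg (z' 2)]
  have hs2 : |-(z 2 / 2)| ≤ 1 / 10 := by rw [abs_neg]; exact hs1
  have hs2' : |-(z' 2 / 2)| ≤ 1 / 10 := by rw [abs_neg]; exact hs1'
  have x1 : |Real.exp (z 2 / 2) - Real.exp (z' 2 / 2)| ≤ |z 2 - z' 2| := by
    refine (DA4_exp _ _ hs1 hs1').trans (le_of_eq ?_)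
    rw [← sub_div, abs_div, abs_two]
    ring
  have x2 : |Real.exp (-(z 2 / 2)) - Real.exp (-(z' 2 / 2))| ≤ |z 2 - z' 2| := by
    refine (DA4_exp _ _ hs2 hs2').trans (le_of_eq ?_)
    have e : -(z 2 / 2) - -(z' 2 / 2) = -((z 2 - z' 2) / 2) := by ring
    rw [e, abs_neg, abs_div, abs_two]
    ring
  have y1 : |Real.exp (z 2 / 2)| ≤ 2 := by
    rw [abs_of_pos (Real.exp_pos _)]
    exact DA4_exp2 _ hs1
  have y2 : |Real.exp (-(z 2 / 2))| ≤ 2 := by
    rw [abs_of_pos (Real.exp_pos _)]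
    exact DA4_exp2 _ hs2
  have hδ : 0 ≤ c * |z 0 - z' 0| := mul_nonneg hL.c0.le (abs_nonneg _)
  have hξ : 0 ≤ |z 1 - z' 1| := abs_nonneg _
  have hσ : 0 ≤ |z 2 - z' 2| := abs_nonneg _
  revert j
  rw [Fin.forall_fin_two]
  constructor
  · unfold Th3
    rw [e0, e0']
    have h := DA4_pe _ _ _ _ _ _ d0 x1 y1 (b0'.trans (by norm_num))
    linarith
  · unfold Th3
    rw [e1, e1']
    have p1 : |((y (z 0)).1 i 0 * z 1 + (y (z 0)).1 i 1) - ((y (z' 0)).1 i 0 * z' 1 + (y (z' 0)).1 i 1)| ≤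
        4 * (c * |z 0 - z' 0|) + 2 * |z 1 - z' 1| := by
      have e : ((y (z 0)).1 i 0 * z 1 + (y (z 0)).1 i 1) - ((y (z' 0)).1 i 0 * z' 1 + (y (z' 0)).1 i 1) =
          ((y (z 0)).1 i 0 - (y (z' 0)).1 i 0) * z 1 + (y (z' 0)).1 i 0 * (z 1 - z' 1) + ((y (z 0)).1 i 1 - (y (z' 0)).1 i 1) := by
        ring
      have q1 : |((y (z 0)).1 i 0 - (y (z' 0)).1 i 0) * z 1| ≤ 3 * (c * |z 0 - z' 0|) * (1 / 10) := by
        rw [abs_mul]
        exact mul_le_mul d0 (hx.trans hr1) (abs_nonneg _) (by linarith)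
      have q2 : |(y (z' 0)).1 i 0 * (z 1 - z' 1)| ≤ 11 / 10 * |z 1 - z' 1| := by
        rw [abs_mul]
        exact mul_le_mul_of_nonneg_right b0' (abs_nonneg _)
      rw [e]
      refine (abs_add_le _ _).trans ?_
      have q3 := abs_add_le (((y (z 0)).1 i 0 - (y (z' 0)).1 i 0) * z 1) ((y (z' 0)).1 i 0 * (z 1 - z' 1))
      linarith
    have p2 : |(y (z' 0)).1 i 0 * z' 1 + (y (z' 0)).1 i 1| ≤ 2 := by
      have q1 : |(y (z' 0)).1 i 0 * z' 1| ≤ 11 / 10 * (1 / 10) := by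
        rw [abs_mul]
        exact mul_le_mul b0' (hx'.trans hr1) (abs_nonneg _) (by norm_num)
      refine (abs_add_le _ _).trans ?_
      linarith
    have h := DA4_pe _ _ _ _ _ _ p1 x2 y2 p2
    linarith

theorem DA4_mt_cont : Continuous (mt : SL(2, ℝ) → Fin 2 → Fin 2 → ℝ) := by
  refine continuous_pi fun i => continuous_pi fun j => ?_
  exact Continuous.matrix_elem continuous_subtype_val i j

theorem DA4_nm_le (g : SL(2, ℝ)) (t : ℝ) (h : ∀ i j, |g.1 i j - (1 : SL(2, ℝ)).1 i j| ≤ t) : nm g ≤ t := by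
  have h00 := h 0 0
  have h01 := h 0 1
  have h10 := h 1 0
  have h11 := h 1 1
  have e : (1 : SL(2, ℝ)).1 = (1 : Matrix (Fin 2) (Fin 2) ℝ) := rfl
  rw [e, Matrix.one_apply_eq] at h00 h11
  rw [e, Matrix.one_apply_ne (by decide), sub_zero] at h01 h10
  exact max_le (max_le h00 h01) (max_le h10 h11)

theorem DA4_nm_ge (g : SL(2, ℝ)) : ∀ i j, |g.1 i j - (1 : SL(2, ℝ)).1 i j| ≤ nm g := by
  obtain ⟨h1, h2, h3, h4⟩ := DA4_nm g
  have e : (1 : SL(2, ℝ)).1 = (1 : Matrix (Fin 2) (Fin 2) ℝ) := rfl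
  rw [Fin.forall_fin_two, Fin.forall_fin_two, Fin.forall_fin_two, e, Matrix.one_apply_eq, Matrix.one_apply_eq,
    Matrix.one_apply_ne (by decide), Matrix.one_apply_ne (by decide), sub_zero, sub_zero]
  exact ⟨⟨h1, h2⟩, h3, h4⟩

theorem DA4_cpt : IsCompact {g : SL(2, ℝ) | nm g ≤ 4} := by
  have hE := Matrix.SpecialLinearGroup.isClosedEmbedding_val (n := Fin 2) (R := ℝ)
  obtain ⟨T, hT⟩ : ∃ T : Set (Fin 2 → Fin 2 → ℝ), T = Set.pi univ fun i : Fin 2 => Set.pi univ fun j : Fin 2 =>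
    Icc ((1 : SL(2, ℝ)).1 i j - 4) ((1 : SL(2, ℝ)).1 i j + 4) := ⟨_, rfl⟩
  have h1 : IsCompact T := by
    rw [hT]
    exact isCompact_univ_pi fun i => isCompact_univ_pi fun j => isCompact_Icc
  have h2 := hE.isCompact_preimage h1
  refine h2.of_isClosed_subset ?_ ?_
  · have hcl : {g : SL(2, ℝ) | nm g ≤ 4} = ⋂ i : Fin 2, ⋂ j : Fin 2, {g : SL(2, ℝ) | |g.1 i j - (1 : SL(2, ℝ)).1 i j| ≤ 4} := by
      ext g
      rw [mem_iInter]
      constructor
      · intro h i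
        rw [mem_iInter]
        intro j
        exact (DA4_nm_ge g i j).trans h
      · intro h
        refine DA4_nm_le g 4 fun i j => ?_
        have h3 := h i
        rw [mem_iInter] at h3
        exact h3 j
    rw [hcl]
    refine isClosed_iInter fun i => isClosed_iInter fun j => ?_
    exact isClosed_le ((Continuous.matrix_elem continuous_subtype_val i j).sub continuous_const).abs continuous_const
  · intro g hg
    show (g.1 : Fin 2 → Fin 2 → ℝ) ∈ T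
    rw [hT]
    intro i _ j _
    have h3 := abs_le.1 ((DA4_nm_ge g i j).trans hg)
    exact ⟨by linarith [h3.1], by linarith [h3.2]⟩

theorem DA4_nMc : Continuous nM := by
  refine (Matrix.SpecialLinearGroup.isClosedEmbedding_val (n := Fin 2) (R := ℝ)).isEmbedding.continuous_iff.2 ?_
  refine continuous_pi fun i => continuous_pi fun j => ?_
  fin_cases i <;> fin_cases j
  · exact continuous_const
  · exact continuous_id
  · exact continuous_const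
  · exact continuous_const

theorem DA4_aMc : Continuous aM := by
  refine (Matrix.SpecialLinearGroup.isClosedEmbedding_val (n := Fin 2) (R := ℝ)).isEmbedding.continuous_iff.2 ?_
  refine continuous_pi fun i => continuous_pi fun j => ?_
  fin_cases i <;> fin_cases j
  · exact Real.continuous_exp.comp (continuous_id.div_const 2)
  · exact continuous_const
  · exact continuous_const
  · exact Real.continuous_exp.comp (continuous_id.div_const 2).neg

theorem DA4_Thc (y : ℝ → SL(2, ℝ)) (hy : Continuous y) : Continuous (Th3 y) :=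
  ((hy.comp (continuous_apply 0)).mul (DA4_nMc.comp (continuous_apply 1))).mul (DA4_aMc.comp (continuous_apply 2))

theorem DA4_proof (hHAL : VQE.HAL_stmt) : DA4_stmt := by
  obtain ⟨C, hC⟩ := hHAL {g : SL(2, ℝ) | nm g ≤ 4} DA4_cpt
  obtain ⟨T, hT⟩ : ∃ T : ℝ≥0∞, T = C * ((36 : NNReal) : ℝ≥0∞) ^ (3 : ℝ) := ⟨_, rfl⟩
  have hTt : T ≠ ⊤ := by
    rw [hT]
    exact ENNReal.mul_ne_top ENNReal.coe_ne_top (ENNReal.rpow_ne_top_of_nonneg (by norm_num) ENNReal.coe_ne_top)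
  refine ⟨max 1 T.toReal, le_max_left _ _, fun c r y hL S hS hSQ => ?_⟩
  have hc := hL.c0
  have hcont := DA4_Thc y hL.cont
  have hcpt : IsCompact (Th3 y '' S) := hS.image hcont
  have hlip := DA4_lip c r y hL
  have h0Q : (0 : Fin 3 → ℝ) ∈ Icc (fun _ => -r) (fun _ : Fin 3 => r) := by
    have hr := hL.r0
    exact ⟨fun _ => by show -r ≤ 0; linarith, fun _ => by show 0 ≤ r; linarith⟩
  have hTh0 : Th3 y 0 = 1 := by
    have e1 : nM 0 = 1 := by
      apply Subtype.ext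
      show !![1, (0 : ℝ); 0, 1] = 1
      rw [Matrix.one_fin_two]
    have e2 : aM 0 = 1 := by
      apply Subtype.ext
      show !![Real.exp (0 / 2), (0 : ℝ); 0, Real.exp (-(0 / 2))] = 1
      rw [zero_div, neg_zero, Real.exp_zero, Matrix.one_fin_two]
    show y 0 * nM 0 * aM 0 = 1
    rw [hL.zero, e1, e2, mul_one, mul_one]
  have hsub : Th3 y '' S ⊆ {g : SL(2, ℝ) | nm g ≤ 4} := by
    rintro _ ⟨z, hz, rfl⟩
    refine DA4_nm_le _ _ fun i j => ?_
    rw [← hTh0]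
    refine (hlip z 0 (hSQ hz) h0Q i j).trans ?_
    have hm : ∀ k, |z k| ≤ r := fun k => abs_le.2 ⟨(hSQ hz).1 k, (hSQ hz).2 k⟩
    have h1 : c * |z 0| ≤ c * r := mul_le_mul_of_nonneg_left (hm 0) hc.le
    have h2 := hm 1
    have h3 := hm 2
    have h4 := hL.r1
    have h5 := hL.cr
    show 12 * (c * |z 0 - 0| + |z 1 - 0| + |z 2 - 0|) ≤ 4
    rw [sub_zero, sub_zero, sub_zero]
    linarith
  have hA := hC (Th3 y '' S) hcpt.isClosed.measurableSet hsub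
  -- the scaling
  obtain ⟨σ, hσ⟩ : ∃ σ : (Fin 3 → ℝ) →ₗ[ℝ] (Fin 3 → ℝ), σ = Matrix.toLin' (Matrix.diagonal ![c, 1, 1]) := ⟨_, rfl⟩
  have hσ0 : ∀ z, σ z 0 = c * z 0 := by
    intro z
    rw [hσ, Matrix.toLin'_apply, Matrix.mulVec_diagonal]
    rfl
  have hσ1 : ∀ z, σ z 1 = z 1 := by
    intro z
    rw [hσ, Matrix.toLin'_apply, Matrix.mulVec_diagonal]
    exact one_mul _
  have hσ2 : ∀ z, σ z 2 = z 2 := by
    intro z
    rw [hσ, Matrix.toLin'_apply, Matrix.mulVec_diagonal]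
    exact one_mul _
  have hdet : LinearMap.det σ = c := by
    rw [hσ, LinearMap.det_toLin', Matrix.det_diagonal, Fin.prod_univ_three]
    show c * 1 * 1 = c
    ring
  have hvol : volume (σ '' S) = ENNReal.ofReal c * volume S := by
    rw [Measure.addHaar_image_linearMap, hdet, abs_of_pos hc]
  obtain ⟨τ, hτ⟩ : ∃ τ : (Fin 3 → ℝ) → (Fin 3 → ℝ), ∀ z, τ (σ z) = z := by
    refine ⟨fun w => ![w 0 / c, w 1, w 2], fun z => ?_⟩
    funext k
    fin_cases k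
    · show σ z 0 / c = z 0
      rw [hσ0, mul_div_cancel_left₀ _ hc.ne']
    · exact hσ1 z
    · exact hσ2 z
  have himg : mt '' (Th3 y '' S) = (fun w => mt (Th3 y (τ w))) '' (σ '' S) := by
    rw [← image_comp, ← image_comp]
    refine image_congr fun z _ => ?_
    show mt (Th3 y z) = mt (Th3 y (τ (σ z)))
    rw [hτ]
  have hLW : LipschitzOnWith 36 (fun w => mt (Th3 y (τ w))) (σ '' S) := by
    refine LipschitzOnWith.of_dist_le_mul ?_
    rintro _ ⟨z, hz, rfl⟩ _ ⟨z', hz', rfl⟩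
    show dist (mt (Th3 y (τ (σ z)))) (mt (Th3 y (τ (σ z')))) ≤ _
    rw [hτ, hτ]
    have hd : ∀ k, |σ z k - σ z' k| ≤ dist (σ z) (σ z') := fun k => dist_le_pi_dist (σ z) (σ z') k
    have d0 := hd 0
    have d1 := hd 1
    have d2 := hd 2
    rw [hσ0, hσ0, ← mul_sub, abs_mul, abs_of_pos hc] at d0
    rw [hσ1, hσ1] at d1
    rw [hσ2, hσ2] at d2
    have hpos : (0 : ℝ) ≤ ((36 : NNReal) : ℝ) * dist (σ z) (σ z') := by positivity
    rw [dist_pi_le_iff hpos]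
    intro i
    rw [dist_pi_le_iff hpos]
    intro j
    have h1 := hlip z z' (hSQ hz) (hSQ hz') i j
    show |(Th3 y z).1 i j - (Th3 y z').1 i j| ≤ _
    refine h1.trans ?_
    have e36 : ((36 : NNReal) : ℝ) = 36 := by norm_num
    rw [e36]
    linarith
  have hH := hLW.hausdorffMeasure_image_le (d := 3) (by norm_num)
  have hH3 : (Measure.hausdorffMeasure 3 : Measure (Fin 3 → ℝ)) (σ '' S) = ENNReal.ofReal c * volume S := by
    have h8 : (Measure.hausdorffMeasure ((Fintype.card (Fin 3) : ℕ) : ℝ) : Measure (Fin 3 → ℝ)) = volume :=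
      hausdorffMeasure_pi_real
    have h9 : ((Fintype.card (Fin 3) : ℕ) : ℝ) = 3 := by simp
    rw [h9] at h8
    rw [h8, hvol]
  rw [hH3, ← himg] at hH
  have hK1 : (0 : ℝ) ≤ max 1 T.toReal := le_trans zero_le_one (le_max_left _ _)
  calc mG (Th3 y '' S) ≤ C * Measure.hausdorffMeasure 3 (mt '' (Th3 y '' S)) := hA
    _ ≤ C * (((36 : NNReal) : ℝ≥0∞) ^ (3 : ℝ) * (ENNReal.ofReal c * volume S)) := mul_le_mul_right hH _
    _ = T * (ENNReal.ofReal c * volume S) := by rw [hT, mul_assoc]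
    _ ≤ ENNReal.ofReal (max 1 T.toReal) * (ENNReal.ofReal c * volume S) := by
        refine mul_le_mul_left ?_ _
        rw [← ENNReal.ofReal_toReal hTt]
        refine ENNReal.ofReal_le_ofReal ?_
        rw [ENNReal.ofReal_toReal hTt]
        exact le_max_right _ _
    _ = ENNReal.ofReal (max 1 T.toReal * c) * volume S := by rw [ENNReal.ofReal_mul hK1, mul_assoc]

end Pool.Agent.VQ
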