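import Pool.Agent.helper80.VQ.SpecFL

/-! Row ROT of project VQ (MP_07c750_an): the rotation by a right angle and the symmetry of the frames. -/

set_option autoImplicit false

open scoped MatrixGroups ContDiff Topology UpperHalfPlane ComplexConjugate ENNReal
open UpperHalfPlane MeasureTheory Filter Set

namespace Pool.Agent.VQ

open Pool.Agent.RS
open Pool.Agent.VQE (nm)

theorem ROT_cdi (hVCD : VCD_stmt) (v : ℂ) (hv : ‖v‖ < 2) : kM (Real.pi / 2) • cdi v = cdi (-v) := by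
  have h1 := hVCD.2.2.2.1 (Real.pi / 2) (cdi v)
  rw [(hVCD.2.1 v hv).1] at h1
  have h2 : Complex.exp (((2 * (Real.pi / 2) : ℝ) : ℂ) * Complex.I) = -1 := by
    have e : 2 * (Real.pi / 2) = Real.pi := by ring
    rw [e, Complex.exp_pi_mul_I]
  rw [h2, neg_one_mul] at h1
  rw [← h1, (hVCD.1 _).2]

theorem ROT_I (hVCD : VCD_stmt) : kM (Real.pi / 2) • I = I := by
  have h1 := hVCD.2.2.2.1 (Real.pi / 2) I
  rw [hVCD.2.2.1, mul_zero] at h1
  have h2 := (hVCD.1 (kM (Real.pi / 2) • I)).2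
  rw [h1, ← hVCD.2.2.1, (hVCD.1 I).2] at h2
  exact h2.symm

theorem ROT_n2 (hVCD : VCD_stmt) (U : ℍ → ℝ) (g : SL(2, ℝ)) : n2 U (g * kM (Real.pi / 2)) = -n2 U g := by
  have h1 : Ug U (g * kM (Real.pi / 2)) =ᶠ[𝓝 0] Ug U g ∘ (ContinuousLinearEquiv.neg ℝ : ℂ ≃L[ℝ] ℂ) := by
    filter_upwards [Metric.ball_mem_nhds (0 : ℂ) two_pos] with v hv
    rw [mem_ball_zero_iff] at hv
    show U ((g * kM (Real.pi / 2)) • cdi v) = U (g • cdi (-v))
    rw [mul_smul, ROT_cdi hVCD v hv]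
  unfold n2
  rw [h1.fderiv_eq, ContinuousLinearEquiv.comp_right_fderiv]
  show fderiv ℝ (Ug U g) (-0) (-Complex.I) = -fderiv ℝ (Ug U g) 0 Complex.I
  rw [neg_zero, map_neg]

theorem ROT_coe (g : SL(2, ℝ)) (z : ℍ) : ((g • z : ℍ) : ℂ) =
    ((g.1 0 0 : ℂ) * (z : ℂ) + (g.1 0 1 : ℂ)) / ((g.1 1 0 : ℂ) * (z : ℂ) + (g.1 1 1 : ℂ)) := by
  rw [UpperHalfPlane.coe_specialLinearGroup_apply]
  simp

theorem ROT_neg (g : SL(2, ℝ)) (z : ℍ) : (-g) • z = g • z := by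
  have h : ((-g • z : ℍ) : ℂ) = ((g • z : ℍ) : ℂ) := by
    rw [ROT_coe, ROT_coe]
    have e00 : (-g).1 0 0 = -g.1 0 0 := rfl
    have e01 : (-g).1 0 1 = -g.1 0 1 := rfl
    have e10 : (-g).1 1 0 = -g.1 1 0 := rfl
    have e11 : (-g).1 1 1 = -g.1 1 1 := rfl
    rw [e00, e01, e10, e11, Complex.ofReal_neg, Complex.ofReal_neg, Complex.ofReal_neg, Complex.ofReal_neg,
      neg_mul, neg_mul, ← neg_add, ← neg_add, neg_div_neg_eq]
  exact UpperHalfPlane.ext h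

theorem ROT_proof (hVCD : VCD_stmt) : ROT_stmt := by
  intro U g E
  have hr : rho U E (g * kM (Real.pi / 2)) = rho U E g := by
    unfold rho
    rw [mul_smul, ROT_I hVCD]
  have hUg : Ug U (-g) = Ug U g := by
    funext v
    show U (-g • cdi v) = U (g • cdi v)
    rw [ROT_neg]
  have hn2 : n2 U (-g) = n2 U g := by
    unfold n2
    rw [hUg]
  have hr' : rho U E (-g) = rho U E g := by
    unfold rho
    rw [ROT_neg]
  refine ⟨ROT_n2 hVCD U g, hr, ?_, fun v => by rw [hUg], ?_, hn2, ?_, hr', ?_⟩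
  · unfold kap
    rw [ROT_n2 hVCD, hr, neg_div]
  · unfold n1
    rw [hUg]
  · unfold hess
    rw [hUg]
  · unfold kap
    rw [hn2, hr']

end Pool.Agent.VQ
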